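import Pool.Agent.Y787.GL.U4
import Pool.Agent.Y787.Base
import Pool.Agent.TH519.HS.Cnt



/-!
# Derivations attached to independent functions of a family
-/

set_option autoImplicit false

namespace Pool.Agent.Y787.FE
open Filter Module Pool.Agent.Y787.GL
open Pool.Agent.TH519.GL
open Pool.Agent.Y787 (QC mem_QC HypC hyperplane hyperplane' Lt_one baker')

variable {Cc : Type} [Field Cc] [CharZero Cc] [IsAlgClosed Cc] {Lt : Submodule (QC Cc) Cc}
  [HypC Lt]

/-- ultrafilters of generic points of a family -/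
theorem exists_ultra' {K ι : Type} [Field K] {n : ℕ} (G : ι → Fin n → K)
    (hB : ∀ P : MvPolynomial (Fin n) K, P ≠ 0 → ∃ b, MvPolynomial.eval (G b) P ≠ 0) :
    ∃ 𝒰 : Ultrafilter ι, ∀ P : MvPolynomial (Fin n) K, P ≠ 0 →
      ∀ᶠ b in (𝒰 : Filter ι), MvPolynomial.eval (G b) P ≠ 0 := by
  let F : Filter ι :=
    { sets := {S | ∃ P : MvPolynomial (Fin n) K, P ≠ 0 ∧
        ∀ b, MvPolynomial.eval (G b) P ≠ 0 → b ∈ S}
      univ_sets := ⟨1, one_ne_zero, fun b _ => Set.mem_univ b⟩
      sets_of_superset := by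
        rintro S S' ⟨P, h1, h2⟩ hS
        exact ⟨P, h1, fun b h => hS (h2 b h)⟩
      inter_sets := by
        rintro S S' ⟨P, h1, h2⟩ ⟨P', h1', h2'⟩
        refine ⟨P * P', mul_ne_zero h1 h1', fun b h => ?_⟩
        rw [map_mul] at h
        exact ⟨h2 b (left_ne_zero_of_mul h), h2' b (right_ne_zero_of_mul h)⟩ }
  have hF : F.NeBot := by
    rw [neBot_iff, Ne, ← empty_mem_iff_bot]
    rintro ⟨P, h1, h2⟩
    obtain ⟨b, h3⟩ := hB P h1
    exact h2 b h3
  exact ⟨Ultrafilter.of F, fun P hP => Ultrafilter.of_le F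
    (show {b | MvPolynomial.eval (G b) P ≠ 0} ∈ F from ⟨P, hP, fun b h => h⟩)⟩

variable {ι : Type} (𝒰 : Ultrafilter ι)

/-- **Derivations on ultrapowers.** -/
theorem exists_ultra_der' {n : ℕ} (G : ι → Fin n → (QC Cc))
    (hgen : ∀ P : MvPolynomial (Fin n) (QC Cc), P ≠ 0 →
      ∀ᶠ b in (𝒰 : Filter ι), MvPolynomial.eval (G b) P ≠ 0) (k : Fin n) :
    ∃ D : Derivation ℤ (Germ (𝒰 : Filter ι) Cc) (Germ (𝒰 : Filter ι) Cc),
      (∀ a : ι → (QC Cc), ∃ a' : ι → (QC Cc), D (gh 𝒰 Cc (up a)) = gh 𝒰 Cc (up a')) ∧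
      (∀ z : Cc, D (gh 𝒰 Cc (fun _ => z)) = 0) ∧
      ∀ m, D (gh 𝒰 Cc (up fun b => G b m)) = if m = k then 1 else 0 := by
  classical
  set cQ : (QC Cc) →+* Germ (𝒰 : Filter ι) (QC Cc) :=
    (gh 𝒰 (QC Cc)).comp (Pi.constRingHom ι (QC Cc)) with hcQ
  set cC : Cc →+* Germ (𝒰 : Filter ι) Cc :=
    (gh 𝒰 Cc).comp (Pi.constRingHom ι Cc) with hcC
  have hch1 : CharZero (Germ (𝒰 : Filter ι) (QC Cc)) :=
    charZero_of_injective_ringHom cQ.injective
  have hch2 : CharZero (Germ (𝒰 : Filter ι) Cc) :=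
    charZero_of_injective_ringHom cC.injective
  set b' : Fin n → Germ (𝒰 : Filter ι) (QC Cc) := fun m => gh 𝒰 (QC Cc) (fun b => G b m) with hb'
  have hinj : Function.Injective (MvPolynomial.eval₂Hom cQ b') := by
    rw [injective_iff_map_eq_zero]
    intro Δ hΔ
    by_contra h0
    have h1 : MvPolynomial.eval₂Hom cQ b' =
        (gh 𝒰 (QC Cc)).comp (RingHom.pi fun b : ι => MvPolynomial.eval (G b)) := by
      apply MvPolynomial.ringHom_ext
      · intro r
        rw [MvPolynomial.coe_eval₂Hom, MvPolynomial.eval₂_C]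
        change gh 𝒰 (QC Cc) (fun _ => r) =
          gh 𝒰 (QC Cc) (fun b => MvPolynomial.eval (G b) (MvPolynomial.C r))
        simp only [MvPolynomial.eval_C]
      · intro m
        rw [MvPolynomial.coe_eval₂Hom, MvPolynomial.eval₂_X]
        change gh 𝒰 (QC Cc) (fun b => G b m) =
          gh 𝒰 (QC Cc) (fun b => MvPolynomial.eval (G b) (MvPolynomial.X m))
        simp only [MvPolynomial.eval_X]
    rw [h1, RingHom.comp_apply, gh_eq_zero] at hΔ
    obtain ⟨b, hb1, hb2⟩ := (hΔ.and (hgen Δ h0)).exists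
    exact hb2 hb1
  obtain ⟨d, hd1, hd2⟩ := exists_partial cQ b' hinj k
  obtain ⟨D, hD1, hD2⟩ := exists_ext_der (C := Cc) cQ (germMap 𝒰 (algebraMap (QC Cc) Cc)) cC
    (fun a => rfl) (by
      intro J s z c hz hsum m hm
      choose c' hc' using fun m => gh_surj 𝒰 (QC Cc) (c m)
      have h1 : ∑ m ∈ s, germMap 𝒰 (algebraMap (QC Cc) Cc) (c m) * cC (z m) =
          gh 𝒰 Cc (∑ m ∈ s, (up (c' m)) * fun _ => z m) := by
        rw [map_sum]
        refine Finset.sum_congr rfl fun m _ => ?_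
        rw [map_mul, ← hc' m, germMap_gh]
        rfl
      rw [h1, gh_eq_zero] at hsum
      rw [← hc' m, gh_eq_zero]
      refine hsum.mono fun b hb => ?_
      rw [Finset.sum_apply] at hb
      have h2 : ∑ m ∈ s, c' m b • z m = 0 := by
        rw [← hb]
        refine Finset.sum_congr rfl fun m _ => ?_
        rw [Algebra.smul_def]
        rfl
      exact linearIndependent_iff'.1 hz s (fun m => c' m b) h2 m hm) d hd1
  refine ⟨D, fun a => ?_, fun z => hD2 z, fun m => ?_⟩
  · obtain ⟨a', ha'⟩ := gh_surj 𝒰 (QC Cc) (d (gh 𝒰 (QC Cc) a))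
    refine ⟨a', ?_⟩
    have h1 := hD1 (gh 𝒰 (QC Cc) a)
    rw [← ha', germMap_gh, germMap_gh] at h1
    exact h1
  · have h1 := hD1 (b' m)
    rw [hd2 m] at h1
    rw [hb'] at h1
    simp only [germMap_gh] at h1
    rw [apply_ite (germMap 𝒰 (algebraMap (QC Cc) Cc)), map_one, map_zero] at h1
    exact h1

theorem gh_cmb'' {M : ℕ} (l' : Fin M → Cc) (a : ι → (Fin M → (QC Cc))) :
    gh 𝒰 Cc (fun b => cmb l' (a b)) =
      ∑ m, gh 𝒰 Cc (up fun b => a b m) * gh 𝒰 Cc (fun _ => l' m) := by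
  simp only [← map_mul, ← map_sum]
  congr 1
  funext b
  rw [Finset.sum_apply]
  rfl

/-- a system of operators: for linear forms `φ i` in the coordinates `β` of a family which are
algebraically independent on the family, derivations `D k` with `D k (φ i) = δ_ik` -/
theorem exists_system {J : Type} [Fintype J] {n : ℕ} (β : ι → J → (QC Cc))
    (φ : Fin n → ((J → (QC Cc)) →ₗ[(QC Cc)] (QC Cc)))
    (hgen : ∀ P : MvPolynomial (Fin n) (QC Cc), P ≠ 0 →
      ∀ᶠ b in (𝒰 : Filter ι), MvPolynomial.eval (fun i => φ i (β b)) P ≠ 0) :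
    ∃ (D : Fin n → Derivation ℤ (Germ (𝒰 : Filter ι) Cc) (Germ (𝒰 : Filter ι) Cc))
      (g : Fin n → (ι → (QC Cc)) → (ι → (QC Cc))),
      (∀ k a, D k (gh 𝒰 Cc (up a)) = gh 𝒰 Cc (up (g k a))) ∧
      (∀ k (z : Cc), D k (gh 𝒰 Cc (fun _ => z)) = 0) ∧
      (∀ {M : ℕ} (l' : Fin M → Cc) k (a : ι → Fin M → (QC Cc)), D k (gh 𝒰 Cc (fun b => cmb l' (a b))) =
        gh 𝒰 Cc (fun b => cmb l' (fun m => g k (fun b => a b m) b))) ∧
      ∀ᶠ b in (𝒰 : Filter ι), ∀ i k, φ i (fun j => g k (fun b => β b j) b) =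
        if i = k then 1 else 0 := by
  classical
  choose D hD1 hD2 hD3 using fun k => exists_ultra_der' 𝒰 (fun b i => φ i (β b)) hgen k
  choose g hg using hD1
  refine ⟨D, g, hg, hD2, ?_, ?_⟩
  · intro M l' k a
    rw [gh_cmb'', gh_cmb'', map_sum]
    refine Finset.sum_congr rfl fun m _ => ?_
    rw [(D k).leibniz, hD2, smul_zero, zero_add, hg, smul_eq_mul, mul_comm]
  · rw [Filter.eventually_all]
    intro i
    rw [Filter.eventually_all]
    intro k
    have hφ : ∀ v : J → (QC Cc), φ i v = ∑ j, v j * φ i (Pi.single j 1) := by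
      intro v
      conv_lhs => rw [pi_eq_sum_univ' v, map_sum]
      refine Finset.sum_congr rfl fun j _ => ?_
      rw [map_smul, smul_eq_mul]
    have e1 : gh 𝒰 Cc (up fun b => φ i (β b)) =
        ∑ j, gh 𝒰 Cc (up fun b => β b j) * gh 𝒰 Cc (fun _ => ((φ i (Pi.single j 1) : (QC Cc)) : Cc)) := by
      simp only [← map_mul, ← map_sum]
      congr 1
      funext b
      rw [Finset.sum_apply]
      change algebraMap (QC Cc) Cc (φ i (β b)) = _
      rw [hφ, map_sum]
      refine Finset.sum_congr rfl fun j _ => ?_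
      rw [map_mul]
      rfl
    have e2 := congrArg (D k) e1
    rw [hD3, map_sum] at e2
    have e3 : ∀ j, D k (gh 𝒰 Cc (up fun b => β b j) *
        gh 𝒰 Cc (fun _ => ((φ i (Pi.single j 1) : (QC Cc)) : Cc))) =
        gh 𝒰 Cc (up (g k fun b => β b j)) *
          gh 𝒰 Cc (fun _ => ((φ i (Pi.single j 1) : (QC Cc)) : Cc)) := by
      intro j
      rw [(D k).leibniz, hD2, smul_zero, zero_add, hg, smul_eq_mul, mul_comm]
    rw [Finset.sum_congr rfl fun j _ => e3 j] at e2
    simp only [← map_mul, ← map_sum] at e2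
    have e4 : (if i = k then (1 : Germ (𝒰 : Filter ι) Cc) else 0) =
        gh 𝒰 Cc (fun _ => ((if i = k then 1 else 0 : (QC Cc)) : Cc)) := by
      split_ifs
      · rw [← map_one (gh 𝒰 Cc)]
        congr 1
      · rw [← map_zero (gh 𝒰 Cc)]
        congr 1
    rw [e4, gh_eq] at e2
    refine e2.mono fun b hb => ?_
    rw [Finset.sum_apply] at hb
    apply Subtype.ext
    rw [hb, hφ]
    push_cast
    refine Finset.sum_congr rfl fun j _ => ?_
    rfl

/-- the rank bound -/
theorem rank_bound {d s n : ℕ} (ξ : Fin d → Cc) (hξ : LinearIndependent (QC Cc) ξ)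
    (A : Fin n → Fin d → Cc) (hA : ∀ k i, A k i ∈ Lt) (hrel : ∀ k, ∑ i, ξ i * A k i = 0)
    (S : Fin n → Fin s → (QC Cc))
    (hinj : ∀ p : Fin n → (QC Cc), (∀ i, ∑ k, (p k : Cc) * A k i = 0) → (∀ j, ∑ k, p k * S k j = 0) →
      p = 0) : n ≤ d * (d - 1) + s := by
  classical
  let T : (Fin n → (QC Cc)) →ₗ[(QC Cc)] (Fin d → Cc) := Fintype.linearCombination (QC Cc) A
  let T' : (Fin n → (QC Cc)) →ₗ[(QC Cc)] (Fin s → (QC Cc)) := Fintype.linearCombination (QC Cc) S
  have hT : ∀ p i, T p i = ∑ k, (p k : Cc) * A k i := by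
    intro p i
    change (Fintype.linearCombination (QC Cc) A p) i = _
    rw [Fintype.linearCombination_apply, Finset.sum_apply]
    refine Finset.sum_congr rfl fun k _ => ?_
    rw [Pi.smul_apply, Algebra.smul_def]
    rfl
  have hT' : ∀ p j, T' p j = ∑ k, p k * S k j := by
    intro p j
    change (Fintype.linearCombination (QC Cc) S p) j = _
    rw [Fintype.linearCombination_apply, Finset.sum_apply]
    rfl
  have h1 := LinearMap.finrank_range_add_finrank_ker T
  rw [Module.finrank_fintype_fun_eq_card, Fintype.card_fin] at h1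
  have h2 : finrank (QC Cc) (LinearMap.ker T) ≤ s := by
    have hi : Function.Injective (T' ∘ₗ (LinearMap.ker T).subtype) := by
      rw [injective_iff_map_eq_zero]
      intro p hp
      apply Subtype.ext
      refine hinj p (fun i => ?_) (fun j => ?_)
      · rw [← hT]
        have := p.2
        rw [LinearMap.mem_ker] at this
        rw [this]
        rfl
      · rw [← hT']
        exact congrFun hp j
    have := LinearMap.finrank_le_finrank_of_injective hi
    rwa [Module.finrank_fintype_fun_eq_card, Fintype.card_fin] at this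
  have h3 : finrank (QC Cc) (LinearMap.range T) ≤ d * (d - 1) := by
    let e := Module.finBasis (QC Cc) (LinearMap.range T)
    have hmem : ∀ m, ∃ p, T p = (e m : Fin d → Cc) := fun m => (e m).2
    choose p hp using hmem
    refine Pool.Agent.Y787.hyperplane (Lt := Lt) d _ ξ (fun i m => (e m : Fin d → Cc) i) hξ ?_ ?_ ?_
    · intro i m
      rw [← hp m, hT]
      refine Submodule.sum_mem _ fun k _ => ?_
      have := Lt.smul_mem (p m k) (hA k i)
      rwa [Algebra.smul_def] at this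
    · intro m
      rw [← hp m]
      simp only [hT, Finset.mul_sum]
      rw [Finset.sum_comm]
      refine Finset.sum_eq_zero fun k _ => ?_
      have : ∑ i, ξ i * ((p m k : Cc) * A k i) = (p m k : Cc) * ∑ i, ξ i * A k i := by
        rw [Finset.mul_sum]
        refine Finset.sum_congr rfl fun i _ => ?_
        ring
      rw [this, hrel, mul_zero]
    · exact e.linearIndependent.map' (LinearMap.range T).subtype (Submodule.ker_subtype _)
  omega

end Pool.Agent.Y787.FE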