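import Pool.Agent.Y787.GL.U4

/-!
# Differentiating quadratic relations between combinations
-/

set_option autoImplicit false

namespace Pool.Agent.Y787.FE
open Filter Pool.Agent.Y787.GL
open Pool.Agent.TH519.GL
open Pool.Agent.Y787 (QC mem_QC HypC hyperplane hyperplane' Lt_one baker')

variable {Cc : Type} [Field Cc] [CharZero Cc] [IsAlgClosed Cc] {Lt : Submodule (QC Cc) Cc}
  [HypC Lt]

variable {N M : ℕ} (𝒰 : Ultrafilter (Fin N → (QC Cc)))

theorem gh_cmb' (l' : Fin M → Cc) (a : (Fin N → (QC Cc)) → (Fin M → (QC Cc))) :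
    gh 𝒰 Cc (fun b => cmb l' (a b)) =
      ∑ m, gh 𝒰 Cc (up fun b => a b m) * gh 𝒰 Cc (fun _ => l' m) := by
  simp only [← map_mul, ← map_sum]
  congr 1
  funext b
  rw [Finset.sum_apply]
  rfl

/-- the partial derivatives act on combinations -/
theorem exists_ops (hgen : ∀ Δ : MvPolynomial (Fin N) (QC Cc), Δ ≠ 0 →
      ∀ᶠ b in (𝒰 : Filter (Fin N → (QC Cc))), MvPolynomial.eval b Δ ≠ 0)
    (l : Fin N → Cc) (l' : Fin M → Cc) (k : Fin N) :
    ∃ (D : Derivation ℤ (Germ (𝒰 : Filter (Fin N → (QC Cc))) Cc) (Germ (𝒰 : Filter (Fin N → (QC Cc))) Cc))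
      (δ : ((Fin N → (QC Cc)) → (Fin M → (QC Cc))) → ((Fin N → (QC Cc)) → (Fin M → (QC Cc)))),
      D (gh 𝒰 Cc (fun b => cmb l b)) = gh 𝒰 Cc (fun _ => l k) ∧
      ∀ a, D (gh 𝒰 Cc (fun b => cmb l' (a b))) = gh 𝒰 Cc (fun b => cmb l' (δ a b)) := by
  obtain ⟨D, hD1, hD2, hD3⟩ := exists_ultra_der 𝒰 hgen k
  choose g hg using hD1
  refine ⟨D, fun a b m => g (fun b => a b m) b, ?_, ?_⟩
  · rw [gh_cmb' 𝒰 l (fun b => b), map_sum, Finset.sum_eq_single k]
    · rw [D.leibniz, hD2, smul_zero, zero_add, hD3, if_pos rfl, smul_eq_mul, mul_one]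
    · intro m _ hm
      rw [D.leibniz, hD2, smul_zero, zero_add, hD3, if_neg hm, smul_zero]
    · intro h; exact absurd (Finset.mem_univ k) h
  · intro a
    rw [gh_cmb', gh_cmb', map_sum]
    refine Finset.sum_congr rfl fun m _ => ?_
    rw [D.leibniz, hD2, smul_zero, zero_add, hg, smul_eq_mul, mul_comm]

/-- **Differentiation of quadratic relations.** -/
theorem quad_diff (hgen : ∀ Δ : MvPolynomial (Fin N) (QC Cc), Δ ≠ 0 →
      ∀ᶠ b in (𝒰 : Filter (Fin N → (QC Cc))), MvPolynomial.eval b Δ ≠ 0)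
    (l : Fin N → Cc) (l' : Fin M → Cc) :
    ∃ δ : Fin N → ((Fin N → (QC Cc)) → (Fin M → (QC Cc))) → ((Fin N → (QC Cc)) → (Fin M → (QC Cc))),
      (∀ e a c : (Fin N → (QC Cc)) → (Fin M → (QC Cc)), (∀ᶠ b in (𝒰 : Filter (Fin N → (QC Cc))),
          cmb l b * cmb l' (e b) = cmb l' (a b) * cmb l' (c b)) →
        ∀ᶠ b in (𝒰 : Filter (Fin N → (QC Cc))), ∀ k,
          l k * cmb l' (e b) + cmb l b * cmb l' (δ k e b) =
            cmb l' (δ k a b) * cmb l' (c b) + cmb l' (a b) * cmb l' (δ k c b)) ∧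
      (∀ a c : (Fin N → (QC Cc)) → (Fin M → (QC Cc)), (∀ᶠ b in (𝒰 : Filter (Fin N → (QC Cc))),
          cmb l b * cmb l b = cmb l' (a b) * cmb l' (c b)) →
        ∀ᶠ b in (𝒰 : Filter (Fin N → (QC Cc))), ∀ k,
          l k * cmb l b + cmb l b * l k =
            cmb l' (δ k a b) * cmb l' (c b) + cmb l' (a b) * cmb l' (δ k c b)) := by
  choose D δ hD hδ using fun k => exists_ops 𝒰 hgen l l' k
  refine ⟨δ, ?_, ?_⟩
  · intro e a c h
    rw [Filter.eventually_all]
    intro k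
    have e1 : gh 𝒰 Cc (fun b => cmb l b) * gh 𝒰 Cc (fun b => cmb l' (e b)) =
        gh 𝒰 Cc (fun b => cmb l' (a b)) * gh 𝒰 Cc (fun b => cmb l' (c b)) := by
      rw [← map_mul, ← map_mul, gh_eq]
      exact h
    have e2 := congrArg (D k) e1
    rw [(D k).leibniz, (D k).leibniz, hD, hδ, hδ, hδ] at e2
    simp only [smul_eq_mul, ← map_mul, ← map_add] at e2
    rw [gh_eq] at e2
    refine e2.mono fun b hb => ?_
    simp only [Pi.add_apply, Pi.mul_apply] at hb
    linear_combination hb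
  · intro a c h
    rw [Filter.eventually_all]
    intro k
    have e1 : gh 𝒰 Cc (fun b => cmb l b) * gh 𝒰 Cc (fun b => cmb l b) =
        gh 𝒰 Cc (fun b => cmb l' (a b)) * gh 𝒰 Cc (fun b => cmb l' (c b)) := by
      rw [← map_mul, ← map_mul, gh_eq]
      exact h
    have e2 := congrArg (D k) e1
    rw [(D k).leibniz, (D k).leibniz, hD, hδ, hδ] at e2
    simp only [smul_eq_mul, ← map_mul, ← map_add] at e2
    rw [gh_eq] at e2
    refine e2.mono fun b hb => ?_
    simp only [Pi.add_apply, Pi.mul_apply] at hb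
    linear_combination hb

end Pool.Agent.Y787.FE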