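import Pool.Agent.Y787.FE.Ops
import Pool.Agent.Y787.FE.Pt

/-!
# The dimension of the family of the rank one matrices
-/

set_option autoImplicit false

namespace Pool.Agent.Y787.FE
open Filter Module Pool.Agent.Y787.GL
open Pool.Agent.TH519.GL
open Pool.Agent.Y787 (QC mem_QC HypC hyperplane hyperplane' Lt_one baker')

variable {Cc : Type} [Field Cc] [CharZero Cc] [IsAlgClosed Cc] {Lt : Submodule (QC Cc) Cc}
  [HypC Lt]

section hd

variable {ι : Type} {𝒰 : Ultrafilter ι}
  {D : Derivation ℤ (Germ (𝒰 : Filter ι) Cc) (Germ (𝒰 : Filter ι) Cc)}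

/-- `f'` is the derivative of `f` -/
def HD (D : Derivation ℤ (Germ (𝒰 : Filter ι) Cc) (Germ (𝒰 : Filter ι) Cc)) (f f' : ι → Cc) : Prop :=
  D (gh 𝒰 Cc f) = gh 𝒰 Cc f'

theorem HD.mul {f f' h h' : ι → Cc} (h1 : HD D f f') (h2 : HD D h h') :
    HD D (fun b => f b * h b) (fun b => f b * h' b + h b * f' b) := by
  unfold HD at *
  have e1 : gh 𝒰 Cc (fun b => f b * h b) = gh 𝒰 Cc f * gh 𝒰 Cc h := by
    rw [← map_mul]
    rfl
  rw [e1, D.leibniz, h1, h2, smul_eq_mul, smul_eq_mul, ← map_mul, ← map_mul, ← map_add]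
  rfl

theorem HD.add {f f' h h' : ι → Cc} (h1 : HD D f f') (h2 : HD D h h') :
    HD D (fun b => f b + h b) (fun b => f' b + h' b) := by
  unfold HD at *
  have e1 : gh 𝒰 Cc (fun b => f b + h b) = gh 𝒰 Cc f + gh 𝒰 Cc h := by
    rw [← map_add]
    rfl
  rw [e1, map_add, h1, h2, ← map_add]
  rfl

theorem HD.congr {f f' h h' : ι → Cc} (h1 : HD D f f') (h2 : HD D h h')
    (h3 : ∀ᶠ b in (𝒰 : Filter ι), f b = h b) : ∀ᶠ b in (𝒰 : Filter ι), f' b = h' b := by
  unfold HD at *
  rw [← gh_eq] at h3 ⊢
  rw [← h1, ← h2, h3]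

end hd

theorem cmb_sum {M n : ℕ} (l' : Fin M → Cc) (p : Fin n → (QC Cc)) (a : Fin n → Fin M → (QC Cc)) :
    ∑ k, (p k : Cc) * cmb l' (a k) = cmb l' (fun m => ∑ k, p k * a k m) := by
  simp only [cmb, map_sum, map_mul, Finset.mul_sum, Finset.sum_mul]
  rw [Finset.sum_comm]
  refine Finset.sum_congr rfl fun m _ => Finset.sum_congr rfl fun k _ => ?_
  rw [mul_assoc]
  rfl

theorem cmb_eq_zero {M : ℕ} {l' : Fin M → Cc} (hl : LinearIndependent (QC Cc) l') {a : Fin M → (QC Cc)}
    (h : cmb l' a = 0) : a = 0 := by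
  funext m
  refine Fintype.linearIndependent_iff.mp hl a ?_ m
  rw [← h, cmb]
  refine Finset.sum_congr rfl fun j _ => ?_
  rw [Algebra.smul_def]

theorem cmb_mem_Lt' {M : ℕ} {l' : Fin M → Cc} (hl' : ∀ j, l' j ∈ Lt) (a : Fin M → (QC Cc)) :
    cmb l' a ∈ Lt := by
  rw [cmb]
  refine Submodule.sum_mem _ fun j _ => ?_
  have := Lt.smul_mem (a j) (hl' j)
  rwa [Algebra.smul_def] at this

theorem smul_Lt (c : (QC Cc)) {z : Cc} (hz : z ∈ Lt) : (c : Cc) * z ∈ Lt := by
  have := Lt.smul_mem c hz
  rwa [Algebra.smul_def] at this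

/-- vectors with a dual system are independent -/
theorem eq_zero_of_dual {J : Type} {n : ℕ} (φ : Fin n → ((J → (QC Cc)) →ₗ[(QC Cc)] (QC Cc)))
    (τ : Fin n → J → (QC Cc)) (h : ∀ i k, φ i (τ k) = if i = k then 1 else 0) (p : Fin n → (QC Cc))
    (hp : ∀ j, ∑ k, p k * τ k j = 0) : p = 0 := by
  have h1 : ∑ k, p k • τ k = 0 := by
    funext j
    rw [Finset.sum_apply]
    exact hp j
  funext i
  have h2 := congrArg (φ i) h1
  rw [map_sum, map_zero] at h2
  simp only [map_smul, h, smul_eq_mul, mul_ite, mul_one, mul_zero, Finset.sum_ite_eq,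
    Finset.mem_univ, if_true] at h2
  exact h2

/-- the entries of the matrix with the coordinates `b` -/
noncomputable def ent {M : ℕ} (l' : Fin M → Cc) (b : Fin 4 × Fin M → (QC Cc)) (s : Fin 4) : Cc :=
  cmb l' (fun m => b (s, m))

/-- rank one matrices with independent rows and columns -/
def Bad {M : ℕ} (l' : Fin M → Cc) (b : Fin 4 × Fin M → (QC Cc)) : Prop :=
  ent l' b 0 ≠ 0 ∧ ent l' b 0 * ent l' b 3 = ent l' b 1 * ent l' b 2 ∧
    (∀ s : (QC Cc), ent l' b 1 ≠ (s : Cc) * ent l' b 0) ∧ ∀ s : (QC Cc), ent l' b 2 ≠ (s : Cc) * ent l' b 0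

theorem bad_cases {x y z w : Cc} (hx0 : x ≠ 0) (h1 : ∀ s : (QC Cc), y ≠ (s : Cc) * x) :
    LinearIndependent (QC Cc) ![x, y, w, z] ∨
    (LinearIndependent (QC Cc) ![x, y, w] ∧ ∃ α β γ : (QC Cc), z = (α : Cc) * x + β * y + γ * w) ∨
    ∃ α β : (QC Cc), w = (α : Cc) * x + β * y := by
  by_cases h3 : LinearIndependent (QC Cc) ![x, y, w]
  · by_cases h4 : LinearIndependent (QC Cc) ![x, y, w, z]
    · exact Or.inl h4
    · right; left
      refine ⟨h3, ?_⟩
      rw [li3_iff] at h3
      rw [li4_iff] at h4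
      push Not at h4
      obtain ⟨a, b, c, d, h5, h6⟩ := h4
      have hd : d ≠ 0 := by
        rintro rfl
        obtain ⟨e1, e2, e3⟩ := h3 a b c (by
          rw [← h5]
          push_cast
          ring)
        exact h6 e1 e2 e3 rfl
      have hd' : (d : Cc) ≠ 0 := by exact_mod_cast hd
      refine ⟨-a / d, -b / d, -c / d, ?_⟩
      push_cast
      field_simp
      linear_combination h5
  · right; right
    rw [li3_iff] at h3
    push Not at h3
    obtain ⟨a, b, c, h5, h6⟩ := h3
    have hc : c ≠ 0 := by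
      rintro rfl
      by_cases hb : b = 0
      · subst hb
        have ha : a ≠ 0 := fun ha => h6 ha rfl rfl
        have ha' : (a : Cc) ≠ 0 := by exact_mod_cast ha
        push_cast at h5
        rw [zero_mul, zero_mul, add_zero, add_zero] at h5
        exact (mul_ne_zero ha' hx0) h5
      · have hb' : (b : Cc) ≠ 0 := by exact_mod_cast hb
        apply h1 (-a / b)
        push_cast at h5 ⊢
        field_simp
        linear_combination h5
    have hc' : (c : Cc) ≠ 0 := by exact_mod_cast hc
    refine ⟨-a / c, -b / c, ?_⟩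
    push_cast
    field_simp
    linear_combination h5

/-- **The family of the rank one matrices has dimension at most 12.** -/
theorem mat_dim {M : ℕ} (l' : Fin M → Cc) (hl : LinearIndependent (QC Cc) l') (hl' : ∀ j, l' j ∈ Lt)
    (φ : Fin 13 → ((Fin 4 × Fin M → (QC Cc)) →ₗ[(QC Cc)] (QC Cc))) :
    ∃ P : MvPolynomial (Fin 13) (QC Cc), P ≠ 0 ∧
      ∀ b, Bad l' b → MvPolynomial.eval (fun i => φ i b) P = 0 := by
  classical
  by_contra hcon
  push Not at hcon
  set ι : Type := {b : Fin 4 × Fin M → (QC Cc) // Bad l' b} with hι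
  obtain ⟨𝒰, hgen⟩ := exists_ultra' (ι := ι) (fun b i => φ i b.1) (by
    intro P hP
    obtain ⟨b, h1, h2⟩ := hcon P hP
    exact ⟨⟨b, h1⟩, h2⟩)
  obtain ⟨D, g, hg, hD2, hDc, hφ⟩ := exists_system 𝒰 (fun b : ι => b.1) φ hgen
  -- entries and their derivatives
  set e : Fin 4 → ι → Cc := fun s b => ent l' b.1 s with he
  set de : Fin 13 → Fin 4 → ι → Cc := fun k s b =>
    cmb l' (fun m => g k (fun b => b.1 (s, m)) b) with hde
  have hHD : ∀ k s, HD (D k) (e s) (de k s) := fun k s => hDc l' k (fun b m => b.1 (s, m))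
  have hHq : ∀ k (α : ι → (QC Cc)), HD (D k) (up α) (up (g k α)) := fun k α => hg k α
  have hrel : ∀ᶠ b in (𝒰 : Filter ι), ∀ k, e 0 b * de k 3 b + e 3 b * de k 0 b =
      e 1 b * de k 2 b + e 2 b * de k 1 b := by
    rw [Filter.eventually_all]
    intro k
    exact HD.congr ((hHD k 0).mul (hHD k 3)) ((hHD k 1).mul (hHD k 2))
      (Filter.Eventually.of_forall fun b => b.2.2.1)
  have hLt : ∀ k s b, de k s b ∈ Lt := fun k s b => cmb_mem_Lt' hl' _
  have heLt : ∀ s b, e s b ∈ Lt := fun s b => cmb_mem_Lt' hl' _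
  -- independence
  have hindep : ∀ᶠ b in (𝒰 : Filter ι), ∀ p : Fin 13 → (QC Cc),
      (∀ s, ∑ k, (p k : Cc) * de k s b = 0) → p = 0 := by
    refine hφ.mono fun b hb p hp => ?_
    refine eq_zero_of_dual φ (fun k j => g k (fun b => b.1 j) b) hb p ?_
    rintro ⟨s, m⟩
    have h1 := hp s
    rw [hde] at h1
    simp only [cmb_sum] at h1
    exact congrFun (cmb_eq_zero hl h1) m
  have hall : ∀ᶠ b in (𝒰 : Filter ι), (LinearIndependent (QC Cc) ![e 0 b, e 1 b, e 2 b, e 3 b]) ∨
      ((LinearIndependent (QC Cc) ![e 0 b, e 1 b, e 2 b] ∧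
        ∃ α β γ : (QC Cc), e 3 b = (α : Cc) * e 0 b + β * e 1 b + γ * e 2 b) ∨
      ∃ α β : (QC Cc), e 2 b = (α : Cc) * e 0 b + β * e 1 b) :=
    Filter.Eventually.of_forall fun b => bad_cases b.2.1 b.2.2.2.1
  rcases Ultrafilter.eventually_or.1 hall with h | h
  · -- independent entries
    obtain ⟨b, hb, hb1, hb2⟩ := (h.and (hrel.and hindep)).exists
    have := rank_bound (Lt := Lt) (d := 4) (s := 0) ![e 0 b, e 1 b, e 2 b, e 3 b] hb
      (fun k i => (![de k 3 b, -de k 2 b, -de k 1 b, de k 0 b] : Fin 4 → Cc) i) (by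
        intro k i
        fin_cases i
        · exact hLt _ _ _
        · exact Lt.neg_mem (hLt _ _ _)
        · exact Lt.neg_mem (hLt _ _ _)
        · exact hLt _ _ _) (by
        intro k
        rw [Fin.sum_univ_four]
        simp only [Matrix.cons_val_zero, Matrix.cons_val_one, Matrix.cons_val_two,
          Matrix.cons_val_three, Matrix.head_cons, Matrix.tail_cons]
        linear_combination hb1 k) (fun _ => isEmptyElim) (by
        intro p hp _
        refine hb2 p fun s => ?_
        have h0 := hp 0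
        have h1 := hp 1
        have h2 := hp 2
        have h3 := hp 3
        simp only [Matrix.cons_val_zero, Matrix.cons_val_one, Matrix.cons_val_two,
          Matrix.cons_val_three, Matrix.head_cons, Matrix.tail_cons, mul_neg,
          Finset.sum_neg_distrib, neg_eq_zero] at h0 h1 h2 h3
        fin_cases s
        · exact h3
        · exact h2
        · exact h1
        · exact h0)
    omega
  rcases Ultrafilter.eventually_or.1 h with h | h
  · -- the last entry is dependent
    have hex : ∀ b : ι, (LinearIndependent (QC Cc) ![e 0 b, e 1 b, e 2 b] ∧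
        ∃ α β γ : (QC Cc), e 3 b = (α : Cc) * e 0 b + β * e 1 b + γ * e 2 b) →
      ∃ α β γ : (QC Cc), e 3 b = (α : Cc) * e 0 b + β * e 1 b + γ * e 2 b := fun b hb => hb.2
    choose! α β γ hαβγ using hex
    have hder : ∀ᶠ b in (𝒰 : Filter ι), ∀ k, de k 3 b =
        (α b : Cc) * de k 0 b + e 0 b * (g k α b : Cc) + ((β b : Cc) * de k 1 b +
          e 1 b * (g k β b : Cc)) + ((γ b : Cc) * de k 2 b + e 2 b * (g k γ b : Cc)) := by
      rw [Filter.eventually_all]
      intro k
      exact HD.congr (hHD k 3) ((((hHq k α).mul (hHD k 0)).add ((hHq k β).mul (hHD k 1))).add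
        ((hHq k γ).mul (hHD k 2))) (h.mono fun b hb => hαβγ b hb)
    obtain ⟨b, hb, hb1, hb2, hb3⟩ := (h.and (hrel.and (hindep.and hder))).exists
    have hz := hαβγ b hb
    obtain ⟨q1, q2, q3, q4⟩ := b.2
    change e 0 b ≠ 0 at q1
    change e 0 b * e 3 b = e 1 b * e 2 b at q2
    have hne : (α b : Cc) + β b * γ b ≠ 0 := by
      intro h0
      have h1 : (e 1 b - (γ b : Cc) * e 0 b) * (e 2 b - (β b : Cc) * e 0 b) = 0 := by
        linear_combination -q2 + e 0 b * hz + (e 0 b * e 0 b) * h0
      rcases mul_eq_zero.1 h1 with h2 | h2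
      · exact q3 (γ b) (sub_eq_zero.1 h2)
      · exact q4 (β b) (sub_eq_zero.1 h2)
    have := rank_bound (Lt := Lt) (d := 3) (s := 3) ![e 0 b, e 1 b, e 2 b] hb.1
      (fun k i => (![(α b : Cc) * de k 0 b + de k 3 b, (β b : Cc) * de k 0 b - de k 2 b,
        (γ b : Cc) * de k 0 b - de k 1 b] : Fin 3 → Cc) i) (by
        intro k i
        fin_cases i
        · exact Lt.add_mem (smul_Lt _ (hLt _ _ _)) (hLt _ _ _)
        · exact Lt.sub_mem (smul_Lt _ (hLt _ _ _)) (hLt _ _ _)
        · exact Lt.sub_mem (smul_Lt _ (hLt _ _ _)) (hLt _ _ _)) (by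
        intro k
        rw [Fin.sum_univ_three]
        simp only [Matrix.cons_val_zero, Matrix.cons_val_one, Matrix.cons_val_two,
          Matrix.head_cons, Matrix.tail_cons]
        linear_combination hb1 k - de k 0 b * hz) (fun k => ![g k α b, g k β b, g k γ b]) (by
        intro p hp hs
        have h0 := hp 0
        have h1 := hp 1
        have h2 := hp 2
        simp only [Matrix.cons_val_zero, Matrix.cons_val_one, Matrix.cons_val_two,
          Matrix.head_cons, Matrix.tail_cons, mul_add, mul_sub, Finset.sum_add_distrib,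
          Finset.sum_sub_distrib] at h0 h1 h2
        have s0 := congrArg (fun q : (QC Cc) => (q : Cc)) (hs 0)
        have s1 := congrArg (fun q : (QC Cc) => (q : Cc)) (hs 1)
        have s2 := congrArg (fun q : (QC Cc) => (q : Cc)) (hs 2)
        simp only [Matrix.cons_val_zero, Matrix.cons_val_one, Matrix.cons_val_two,
          Matrix.head_cons, Matrix.tail_cons] at s0 s1 s2
        push_cast at s0 s1 s2
        have hpull : ∀ (c : Cc) (f : Fin 13 → Cc), ∑ k, (p k : Cc) * (c * f k) =
            c * ∑ k, (p k : Cc) * f k := by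
          intro c f
          rw [Finset.mul_sum]
          refine Finset.sum_congr rfl fun k _ => ?_
          ring
        rw [hpull] at h0 h1 h2
        have hdz : ∑ k, (p k : Cc) * de k 3 b = (α b : Cc) * ∑ k, (p k : Cc) * de k 0 b +
            (β b : Cc) * ∑ k, (p k : Cc) * de k 1 b + (γ b : Cc) * ∑ k, (p k : Cc) * de k 2 b := by
          have e1 : ∑ k, (p k : Cc) * de k 3 b = ∑ k, (p k : Cc) * ((α b : Cc) * de k 0 b) +
            ∑ k, (p k : Cc) * (e 0 b * (g k α b : Cc)) + (∑ k, (p k : Cc) * ((β b : Cc) * de k 1 b) +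
            ∑ k, (p k : Cc) * (e 1 b * (g k β b : Cc))) + (∑ k, (p k : Cc) * ((γ b : Cc) * de k 2 b) +
            ∑ k, (p k : Cc) * (e 2 b * (g k γ b : Cc))) := by
            simp only [← Finset.sum_add_distrib, ← mul_add]
            refine Finset.sum_congr rfl fun k _ => ?_
            rw [hb3 k]
          simp only [hpull, s0, s1, s2, mul_zero, add_zero] at e1
          exact e1
        have hX : ∑ k, (p k : Cc) * de k 0 b = 0 := by
          have h5 : ((α b : Cc) + β b * γ b) * (2 * ∑ k, (p k : Cc) * de k 0 b) = 0 := by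
            linear_combination h0 - hdz + (γ b : Cc) * h1 + (β b : Cc) * h2
          have h6 := (mul_eq_zero.1 h5).resolve_left hne
          exact (mul_eq_zero.1 h6).resolve_left two_ne_zero
        rw [hX, mul_zero] at h0 h1 h2
        have hY : ∑ k, (p k : Cc) * de k 1 b = 0 := by linear_combination -h2
        have hW : ∑ k, (p k : Cc) * de k 2 b = 0 := by linear_combination -h1
        have hZ : ∑ k, (p k : Cc) * de k 3 b = 0 := by linear_combination h0
        refine hb2 p fun s => ?_
        fin_cases s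
        · exact hX
        · exact hY
        · exact hW
        · exact hZ)
    omega
  · -- the third entry is dependent
    have hex : ∀ b : ι, (∃ α β : (QC Cc), e 2 b = (α : Cc) * e 0 b + β * e 1 b) →
      ∃ α β : (QC Cc), e 2 b = (α : Cc) * e 0 b + β * e 1 b := fun b hb => hb
    choose! α β hαβ using hex
    have hder : ∀ᶠ b in (𝒰 : Filter ι), ∀ k, de k 2 b =
        (α b : Cc) * de k 0 b + e 0 b * (g k α b : Cc) + ((β b : Cc) * de k 1 b +
          e 1 b * (g k β b : Cc)) := by
      rw [Filter.eventually_all]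
      intro k
      exact HD.congr (hHD k 2) (((hHq k α).mul (hHD k 0)).add ((hHq k β).mul (hHD k 1)))
        (h.mono fun b hb => hαβ b hb)
    obtain ⟨b, hb, hb1, hb2, hb3⟩ := (h.and (hrel.and (hindep.and hder))).exists
    have hw := hαβ b hb
    obtain ⟨q1, q2, q3, q4⟩ := b.2
    change e 0 b ≠ 0 at q1
    change e 0 b * e 3 b = e 1 b * e 2 b at q2
    have hβ : (β b : Cc) ≠ 0 := by
      intro h0
      apply q4 (α b)
      change e 2 b = _
      rw [hw, h0, zero_mul, add_zero]
    have hξ : LinearIndependent (QC Cc) ![e 0 b, e 1 b, e 3 b] := by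
      obtain ⟨t, ht⟩ : ∃ t, e 1 b = t * e 0 b := ⟨e 1 b / e 0 b, (div_mul_cancel₀ _ q1).symm⟩
      have htQ : t ∉ (QC Cc) := fun h => q3 ⟨t, h⟩ ht
      have hz : e 3 b = ((α b : Cc) * t + β b * (t * t)) * e 0 b := by
        apply mul_left_cancel₀ q1
        rw [q2, hw, ht]
        ring
      rw [li3_iff]
      intro c1 c2 c3 h5
      rw [ht, hz] at h5
      have h6 : e 0 b * ((c1 : Cc) + ((c2 + c3 * α b : (QC Cc)) : Cc) * t +
          ((c3 * β b : (QC Cc)) : Cc) * (t * t)) = 0 := by
        rw [← h5]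
        push_cast
        ring
      obtain ⟨g1, g2, g3⟩ := pow3_indep htQ _ _ _ ((mul_eq_zero.1 h6).resolve_left q1)
      have hβ' : β b ≠ 0 := by
        intro h
        apply hβ
        rw [h]
        rfl
      have hc3 : c3 = 0 := (mul_eq_zero.1 g3).resolve_right hβ'
      rw [hc3, zero_mul, add_zero] at g2
      exact ⟨g1, g2, hc3⟩
    have := rank_bound (Lt := Lt) (d := 3) (s := 2) ![e 0 b, e 1 b, e 3 b] hξ
      (fun k i => (![de k 3 b - (α b : Cc) * de k 1 b - (g k α b : Cc) * e 1 b,
        -((β b : Cc) * de k 1 b + (β b : Cc) * de k 1 b + (α b : Cc) * de k 0 b +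
          (g k β b : Cc) * e 1 b), de k 0 b] : Fin 3 → Cc) i) (by
        intro k i
        fin_cases i
        · exact Lt.sub_mem (Lt.sub_mem (hLt _ _ _) (smul_Lt _ (hLt _ _ _))) (smul_Lt _ (heLt _ _))
        · exact Lt.neg_mem (Lt.add_mem (Lt.add_mem (Lt.add_mem (smul_Lt _ (hLt _ _ _))
            (smul_Lt _ (hLt _ _ _))) (smul_Lt _ (hLt _ _ _))) (smul_Lt _ (heLt _ _)))
        · exact hLt _ _ _) (by
        intro k
        rw [Fin.sum_univ_three]
        simp only [Matrix.cons_val_zero, Matrix.cons_val_one, Matrix.cons_val_two,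
          Matrix.head_cons, Matrix.tail_cons]
        linear_combination hb1 k + e 1 b * hb3 k + de k 1 b * hw)
        (fun k => ![g k α b, g k β b]) (by
        intro p hp hs
        have h0 := hp 0
        have h1 := hp 1
        have h2 := hp 2
        simp only [Matrix.cons_val_zero, Matrix.cons_val_one, Matrix.cons_val_two,
          Matrix.head_cons, Matrix.tail_cons, mul_add, mul_sub, mul_neg, Finset.sum_add_distrib,
          Finset.sum_sub_distrib, Finset.sum_neg_distrib] at h0 h1 h2
        have s0 := congrArg (fun q : (QC Cc) => (q : Cc)) (hs 0)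
        have s1 := congrArg (fun q : (QC Cc) => (q : Cc)) (hs 1)
        simp only [Matrix.cons_val_zero, Matrix.cons_val_one] at s0 s1
        push_cast at s0 s1
        have hpull : ∀ (c : Cc) (f : Fin 13 → Cc), ∑ k, (p k : Cc) * (c * f k) =
            c * ∑ k, (p k : Cc) * f k := by
          intro c f
          rw [Finset.mul_sum]
          refine Finset.sum_congr rfl fun k _ => ?_
          ring
        have hpull' : ∀ (c : Cc) (f : Fin 13 → Cc), ∑ k, (p k : Cc) * (f k * c) =
            c * ∑ k, (p k : Cc) * f k := by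
          intro c f
          rw [Finset.mul_sum]
          refine Finset.sum_congr rfl fun k _ => ?_
          ring
        simp only [hpull, hpull' (e 1 b)] at h0 h1
        rw [s0, mul_zero, sub_zero] at h0
        rw [s1, mul_zero, add_zero, h2, mul_zero, add_zero] at h1
        have hY : ∑ k, (p k : Cc) * de k 1 b = 0 := by
          have h5 : (β b : Cc) * (2 * ∑ k, (p k : Cc) * de k 1 b) = 0 := by
            linear_combination -h1
          have h6 := (mul_eq_zero.1 h5).resolve_left hβ
          exact (mul_eq_zero.1 h6).resolve_left two_ne_zero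
        rw [hY, mul_zero, sub_zero] at h0
        have hW : ∑ k, (p k : Cc) * de k 2 b = 0 := by
          have e1 : ∑ k, (p k : Cc) * de k 2 b = ∑ k, (p k : Cc) * ((α b : Cc) * de k 0 b) +
            ∑ k, (p k : Cc) * (e 0 b * (g k α b : Cc)) + (∑ k, (p k : Cc) * ((β b : Cc) * de k 1 b) +
            ∑ k, (p k : Cc) * (e 1 b * (g k β b : Cc))) := by
            simp only [← Finset.sum_add_distrib, ← mul_add]
            refine Finset.sum_congr rfl fun k _ => ?_
            rw [hb3 k]
          simp only [hpull, s0, s1, h2, hY, mul_zero, add_zero] at e1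
          exact e1
        refine hb2 p fun s => ?_
        fin_cases s
        · exact h2
        · exact hY
        · exact hW
        · exact h0)
    omega

end Pool.Agent.Y787.FE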